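import Pool.Agent.helper4.HL.Spec

open Pool.Agent.helper86.CM Pool.Agent.QS Filter MeasureTheory

open scoped BigOperators ComplexOrder ComplexConjugate Topology

namespace Pool.Agent.HL

theorem PH0Q_mul (Q N : ℕ) (hQ : 1 ≤ Q) (a : ℝ) :
    (Q : ℝ) * (a / ((Q * N : ℕ) : ℝ)) = a / N := by
  have hQ' : (Q : ℝ) ≠ 0 := by
    have : 0 < Q := hQ
    positivity
  rcases Nat.eq_zero_or_pos N with h | h
  · subst h
    simp
  · have hN : (N : ℝ) ≠ 0 := by positivity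
    push_cast
    field_simp

theorem PH0Q_hN (Q N : ℕ) (hQ : 1 ≤ Q) (x y : Lat 1) :
    hN N x y = (Q : ℝ) * hN (Q * N) x y := by
  have h := PH0Q_mul Q N hQ ((omega x y : ℝ) / 2)
  unfold hN
  rw [← div_div, ← div_div]
  exact h.symm

theorem PH0Q (h0 : PH0_stmt) : PH0Q_stmt := by
  intro B t hB Q hQ
  obtain ⟨C, hC1, hC⟩ := h0 B t hB
  refine ⟨C, hC1, ?_⟩
  intro s k r j N x y hk hN0
  have key := hC s k r j (Q * N) x y hk hN0
  rw [PH0Q_hN Q N hQ]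
  unfold hx
  rw [← mul_sub, abs_mul]
  have hQa : |(Q : ℝ)| = Q := abs_of_nonneg (by positivity)
  rw [hQa]
  calc (Q : ℝ) * |hN (Q * N) (site B s k r j x) (site B s k r j y) - hh B t x y|
      ≤ (Q : ℝ) * (C * ‖x‖ * ‖y‖ / ((Q * N : ℕ) : ℝ)) := by
        apply mul_le_mul_of_nonneg_left key
        positivity
    _ = C * ‖x‖ * ‖y‖ / N := PH0Q_mul Q N hQ _

end Pool.Agent.HL
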